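import Pool.Agent.InvSub2.Fn2

/-!
# MP_c40997_an: the spaces of maximal dimension containing all polynomials of degree less than `2k`
and one further polynomial

`V k G` is the space of all real polynomials `u` with `u^(2k)` a constant multiple of the real
polynomial `G` of degree at least one (so `V k G = ⟨1, x, …, x^(2k-1), g⟩` with `g^(2k) = G`).  On
an interval without zeros of `G` it is the space of all solutions of the linear equation
`G u^(2k+1) = G' u^(2k)` of order `2k+1`.

We determine when `V k G` is invariant under a nonlinear operator of order `k`, and when two of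
these spaces are equivalent.
-/

set_option autoImplicit false

open Polynomial InvSub2

namespace Pool.Agent.Results.MP_c40997_an.ExoticSpaces

theorem result (k : ℕ) (hk : 2 ≤ k) (G : ℝ[X]) (hG : 1 ≤ G.natDegree) :
    -- the space
    (Module.finrank ℝ (V k G) = 2 * k + 1 ∧
      ∀ u ∈ V k G, G * derivative^[2 * k + 1] u = derivative G * derivative^[2 * k] u) ∧
    -- equivalence of these spaces
    (∀ H : ℝ[X], H ≠ 0 →
      (Eqv k G H ↔ ∃ α β l : ℝ, α ≠ 0 ∧ l ≠ 0 ∧ G.comp (C α * X + C β) = C l * H)) ∧
    -- the spaces with a nonlinear operator of order `k`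
    (∀ I : Set ℝ, IsOpen I → I.OrdConnected → I.Nonempty → (∀ x ∈ I, G.eval x ≠ 0) →
      (Adm k G I ↔ G.natDegree + (G.map (algebraMap ℝ ℂ)).roots.toFinset.card ≤ k)) := by
  have hG0 : G ≠ 0 := by
    rintro rfl
    rw [natDegree_zero] at hG
    omega
  exact ⟨⟨finrank_V (by omega) hG0, fun u hu => V_ode hu⟩, fun H hH => eqv_iff hk hG hH,
    fun I hI hc hne hGI => adm_iff (by omega) hI hc hne hGI⟩

end Pool.Agent.Results.MP_c40997_an.ExoticSpaces
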