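import Pool.Agent.InvSub.FlatF

/-!
# MP_c40997_an: all operators of order `k` preserving a space equivalent to the polynomials of
degree at most `2k`

`W` is the space of all functions `ψ·(p∘φ)`, `p` a real polynomial of degree at most `2k`, on an
open interval `I`, where `φ` and `ψ` are smooth, `φ' ≠ 0` and `ψ ≠ 0` on `I` (this contains the
polynomials, the exponential polynomials `1, e^x, …, e^(2kx)` and, on intervals of length less
than `2π`, the trigonometric polynomials of degree `k`, the latter with `φ = tan(x/2)` and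
`ψ = cos(x/2)^(2k)`).
-/

set_option autoImplicit false

open Set Polynomial Pool.Agent.InvSub

namespace Pool.Agent.Results.MP_c40997_an.FlatDescription

theorem result (k : ℕ) (hk : 1 ≤ k) (I : Set ℝ) (hI : IsOpen I) (hc : I.OrdConnected)
    (hne : I.Nonempty) (φ ψ : ℝ → ℝ) (hφ : ContDiffOn ℝ (⊤ : ℕ∞) φ I)
    (hφ' : ∀ x ∈ I, deriv φ x ≠ 0) (hψ : ContDiffOn ℝ (⊤ : ℕ∞) ψ I) (hψ0 : ∀ x ∈ I, ψ x ≠ 0) :
    -- an operator preserves the space iff it has the normal form, and the data are then unique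
    (∀ F : ℝ → (Fin (k + 1) → ℝ) → ℝ,
      ContDiffOn ℝ (⊤ : ℕ∞) (fun p : ℝ × (Fin (k + 1) → ℝ) => F p.1 p.2) (I ×ˢ univ) →
      ((∀ p : ℝ[X], p.natDegree ≤ 2 * k → ∃ q : ℝ[X], q.natDegree ≤ 2 * k ∧
          ∀ x ∈ I, app k F φ ψ p x = ψ x * q.eval (φ x)) ↔
        ∃! D : ℝ[X] × (Fin (k + 1) → Fin (k + 1) → ℝ) × (Fin (k + 1) → Fin (k + 1) → ℝ),
          D.1.natDegree ≤ 2 * k ∧ (∀ i j, D.2.2 i j = D.2.2 j i) ∧
          ∀ p : ℝ[X], p.natDegree ≤ 2 * k → ∀ x ∈ I,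
            app k F φ ψ p x = nf k φ ψ D.1 D.2.1 D.2.2 p x)) ∧
    -- all data occur, for exactly one operator
    (∀ (H : ℝ[X]) (lam mu : Fin (k + 1) → Fin (k + 1) → ℝ), H.natDegree ≤ 2 * k →
      (∀ i j, mu i j = mu j i) →
      ∃ F : ℝ → (Fin (k + 1) → ℝ) → ℝ,
        ContDiffOn ℝ (⊤ : ℕ∞) (fun p : ℝ × (Fin (k + 1) → ℝ) => F p.1 p.2) (I ×ˢ univ) ∧
        (∀ p : ℝ[X], p.natDegree ≤ 2 * k → ∀ x ∈ I,
          app k F φ ψ p x = nf k φ ψ H lam mu p x) ∧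
        (∀ G : ℝ → (Fin (k + 1) → ℝ) → ℝ, (∀ p : ℝ[X], p.natDegree ≤ 2 * k → ∀ x ∈ I,
          app k G φ ψ p x = nf k φ ψ H lam mu p x) → ∀ x ∈ I, ∀ v, G x v = F x v) ∧
        -- it is linear iff `mu = 0`
        ((∃ (g : Fin (k + 1) → ℝ → ℝ) (h : ℝ → ℝ), ∀ x ∈ I, ∀ v,
          F x v = ∑ l, g l x * v l + h x) ↔ mu = 0)) := by
  refine ⟨fun F hF => ⟨fun hinv => ?_, ?_⟩, ?_⟩
  · obtain ⟨H, lam, mu, hH, hmu, hform⟩ := normal_form hk hI hc hne hφ hφ' hψ hψ0 hF hinv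
    refine ⟨(H, lam, mu), ⟨hH, hmu, hform⟩, ?_⟩
    rintro ⟨H', lam', mu'⟩ ⟨-, hmu', hform'⟩
    obtain ⟨e1, e2, e3⟩ := data_unique hI hc hne hφ hφ' hψ0 hmu' hmu (fun p hp x hx => by
      rw [← hform p hp x hx]; exact (hform' p hp x hx).symm)
    simp only [Prod.mk.injEq]
    exact ⟨e1, e2, e3⟩
  · rintro ⟨D, ⟨hH, -, hform⟩, -⟩ p hp
    obtain ⟨q, hq, hq2⟩ := nf_inv (φ := φ) (ψ := ψ) (lam := D.2.1) (mu := D.2.2) hH hp
    exact ⟨q, hq, fun x hx => (hform p hp x hx).trans (hq2 x)⟩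
  · intro H lam mu hH hmu
    obtain ⟨F, hF1, hF2, -⟩ := exists_op hI hφ hφ' hψ hψ0 H lam mu
    refine ⟨F, hF1, hF2, fun G hG x hx v => ?_, ?_⟩
    · exact op_unique hI hc hne hφ hφ' hψ hψ0 (fun p hp x hx => by
        rw [hF2 p hp x hx, hG p hp x hx]) hx v
    · exact linear_iff hI hc hne hφ hφ' hψ hψ0 hmu hF2

end Pool.Agent.Results.MP_c40997_an.FlatDescription
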