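import Pool.Agent.InvSub.Quad

/-!
# MP_c40997_an: operators of order `k` on a subspace of maximal dimension `2k+1` are quadratic

`k ≥ 1`, `I` an open interval, `F : I × ℝ^(k+1) → ℝ` smooth, `W` the span of a fundamental system
`f 0, …, f (2k)` of a monic linear ODE of order `2k+1` with smooth coefficients on `I`.  If every
`F[u]`, `u ∈ W`, solves one fixed monic linear ODE of order `m ≤ 3k` with continuous coefficients
(for instance the ODE of `W`, so that `F[W] ⊆ W`), then `F` is a polynomial of degree at most two in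
`(u, u', …, u^(k))` with coefficients which are smooth functions of `x`.
-/

set_option autoImplicit false

open Set

namespace Pool.Agent.Results.MP_c40997_an.QuadraticForm

theorem result (k m : ℕ) (hk : 1 ≤ k) (hm : m ≤ 3 * k) (I : Set ℝ) (hI : IsOpen I)
    (hc : I.OrdConnected)
    -- the operator `F[u](x) = F(x, u(x), u'(x), …, u^(k)(x))`
    (F : ℝ → (Fin (k + 1) → ℝ) → ℝ)
    (hF : ContDiffOn ℝ (⊤ : ℕ∞) (fun p : ℝ × (Fin (k + 1) → ℝ) => F p.1 p.2) (I ×ˢ univ))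
    -- the space `W` of dimension `2k+1`
    (a f : Fin (2 * k + 1) → ℝ → ℝ)
    (ha : ∀ j, ContDiffOn ℝ (⊤ : ℕ∞) (a j) I) (hf : ∀ j, ContDiffOn ℝ (⊤ : ℕ∞) (f j) I)
    (hode : ∀ l, ∀ x ∈ I,
      iteratedDeriv (2 * k + 1) (f l) x + ∑ j, a j x * iteratedDeriv j (f l) x = 0)
    (hind : ∀ c : Fin (2 * k + 1) → ℝ, (∀ x ∈ I, ∑ j, c j * f j x = 0) → c = 0)
    -- `F` maps `W` into the solution space of a linear equation of order `m ≤ 3k`
    (b : Fin m → ℝ → ℝ) (hb : ∀ j, ContinuousOn (b j) I)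
    (hinv : ∀ u w : ℝ → ℝ, (∃ c : Fin (2 * k + 1) → ℝ, ∀ x, u x = ∑ j, c j * f j x) →
      (∀ x, w x = F x (fun i => iteratedDeriv i u x)) →
      ∀ x ∈ I, iteratedDeriv m w x + ∑ j, b j x * iteratedDeriv j w x = 0) :
    ∃ (B : Fin (k + 1) → Fin (k + 1) → ℝ → ℝ) (A : Fin (k + 1) → ℝ → ℝ) (H : ℝ → ℝ),
      (∀ i j, ContDiffOn ℝ (⊤ : ℕ∞) (B i j) I) ∧ (∀ i, ContDiffOn ℝ (⊤ : ℕ∞) (A i) I) ∧
      ContDiffOn ℝ (⊤ : ℕ∞) H I ∧ (∀ i j x, B i j x = B j i x) ∧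
      ∀ x ∈ I, ∀ v, F x v = ∑ i, ∑ j, B i j x * v i * v j + ∑ i, A i x * v i + H x :=
  Pool.Agent.InvSub.quadratic hk hI hc hF ⟨ha, hf, hode, hind⟩ hm hb
    (fun c => hinv (Pool.Agent.InvSub.comb f c) _ ⟨c, fun _ => rfl⟩ (fun _ => rfl))

end Pool.Agent.Results.MP_c40997_an.QuadraticForm
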